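import Pool.Agent.helper75.AU.SpecR

/-!
# Project au, module BA4 (sums over orbits of an invariant function)
-/

namespace Pool.Agent.helper75.AU

open scoped Classical
open Pool.Agent.helper53.AU MulAction

theorem BA4_ite {G X : Type} [Group G] [MulAction G X] [Fintype X] (x : X) (c : ℤ) :
    ∑ z : X, (if z ∈ orbit G x then c else 0) = oo G x * c := by
  rw [← Finset.sum_filter, Finset.sum_const, nsmul_eq_mul]
  congr 2
  unfold oo
  rw [Nat.card_eq_fintype_card, Fintype.card_subtype]

theorem BA4_val {G X : Type} [Group G] [MulAction G X] (f : X → ℤ)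
    (hf : ∀ (a : G) (z : X), f (a • z) = f z) {x z : X} (h : z ∈ orbit G x) : f z = f x := by
  obtain ⟨a, rfl⟩ := h
  exact hf a x

theorem BA4_disj {G X : Type} [Group G] [MulAction G X] {x y z : X}
    (h : ∀ a : G, a • x ≠ y) (hx : z ∈ orbit G x) : z ∉ orbit G y := by
  intro hy
  obtain ⟨a, rfl⟩ := hx
  obtain ⟨b, hb⟩ := hy
  apply h (b⁻¹ * a)
  have hb' : b • y = a • x := hb
  rw [mul_smul, ← hb', inv_smul_smul]

theorem BA4 : BA4_stmt := by
  intro G X _ _ _ _
  refine ⟨?_, ?_, ?_, ?_⟩
  · intro x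
    have h1 := MulAction.index_stabilizer G x
    have h2 := (stabilizer G x).index_mul_card
    rw [← h2, h1]
    rfl
  · intro f x hf h0
    rw [← BA4_ite]
    refine Finset.sum_congr rfl fun z _ => ?_
    by_cases hz : z ∈ orbit G x
    · rw [if_pos hz, BA4_val f hf hz]
    · rw [if_neg hz, h0 z hz]
  · intro f x y hf hxy h0
    rw [← BA4_ite, ← BA4_ite, ← Finset.sum_add_distrib]
    refine Finset.sum_congr rfl fun z _ => ?_
    by_cases hz : z ∈ orbit G x
    · rw [if_pos hz, if_neg (BA4_disj hxy hz), BA4_val f hf hz, add_zero]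
    · rw [if_neg hz]
      by_cases hz' : z ∈ orbit G y
      · rw [if_pos hz', BA4_val f hf hz', zero_add]
      · rw [if_neg hz', h0 z hz hz', add_zero]
  · intro f x y w hf hxy hxw hyw h0
    rw [← BA4_ite, ← BA4_ite, ← BA4_ite, ← Finset.sum_add_distrib, ← Finset.sum_add_distrib]
    refine Finset.sum_congr rfl fun z _ => ?_
    by_cases hz : z ∈ orbit G x
    · rw [if_pos hz, if_neg (BA4_disj hxy hz), if_neg (BA4_disj hxw hz), BA4_val f hf hz,
        add_zero, add_zero]
    · rw [if_neg hz]
      by_cases hz' : z ∈ orbit G y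
      · rw [if_pos hz', if_neg (BA4_disj hyw hz'), BA4_val f hf hz', zero_add, add_zero]
      · rw [if_neg hz']
        by_cases hz'' : z ∈ orbit G w
        · rw [if_pos hz'', BA4_val f hf hz'', zero_add, zero_add]
        · rw [if_neg hz'', h0 z hz hz' hz'', zero_add, zero_add]

end Pool.Agent.helper75.AU
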