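import Pool.Agent.helper75.AU.SpecR2

/-!
# Project au, module ID (Case I: `4 ∣ e'` and the element `s`)
-/

namespace Pool.Agent.helper75.AU

open scoped Classical
open Pool.Agent.helper53.AU MulAction

theorem ID_pow {a b m n : ℕ} (hm : ¬ 2 ∣ m) (hn : ¬ 2 ∣ n) (h : 2 ^ a * m = 2 ^ b * n) : a = b := by
  rcases lt_trichotomy a b with hab | hab | hab
  · exfalso
    obtain ⟨d, rfl⟩ := Nat.exists_eq_add_of_lt hab
    have h1 : m = 2 ^ (d + 1) * n := by
      have : 2 ^ a * m = 2 ^ a * (2 ^ (d + 1) * n) := by rw [h]; ring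
      exact Nat.eq_of_mul_eq_mul_left (by positivity) this
    exact hm ⟨2 ^ d * n, by rw [h1]; ring⟩
  · exact hab
  · exfalso
    obtain ⟨d, rfl⟩ := Nat.exists_eq_add_of_lt hab
    have h1 : n = 2 ^ (d + 1) * m := by
      have : 2 ^ b * n = 2 ^ b * (2 ^ (d + 1) * m) := by rw [← h]; ring
      exact Nat.eq_of_mul_eq_mul_left (by positivity) this
    exact hn ⟨2 ^ d * m, by rw [h1]; ring⟩

/-- a 2-element in a 3-group is trivial -/
theorem ID_two_three {G : Type} [Group G] (P : Subgroup G) (hP : IsPGroup 3 P) (g : G) (hg : g ∈ P)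
    (n : ℕ) (h : g ^ (2 ^ n) = 1) : g = 1 := by
  obtain ⟨k, hk⟩ := hP ⟨g, hg⟩
  have hk' : g ^ (3 ^ k) = 1 := congrArg Subtype.val hk
  have h1 : orderOf g ∣ 2 ^ n := orderOf_dvd_of_pow_eq_one h
  have h2 : orderOf g ∣ 3 ^ k := orderOf_dvd_of_pow_eq_one hk'
  have h3 : Nat.Coprime (2 ^ n) (3 ^ k) := Nat.Coprime.pow _ _ (by norm_num)
  exact orderOf_eq_one_iff.mp (Nat.eq_one_of_dvd_coprimes h3 h1 h2)

theorem ID (hIV : IV_stmt) (hQU : QU_stmt) : ID_stmt := by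
  intro k G X _ _ _ _ _ _ l R x y c u h' e' u₁ hl h6 hI
  obtain ⟨z1, z2, z3, z4, z5, z6⟩ := hIV k G X l R x y c u h' e' u₁ hl h6 hI
  have hce : orderOf c = e' := by rw [h6.c_ord, hI.u1, one_mul]
  have he'pos : 0 < e' := h6.num.pos.2.2.2
  obtain ⟨a, m, hm, hem⟩ := Nat.exists_eq_pow_mul_and_not_dvd he'pos.ne' 2 (by norm_num)
  have ha : 1 ≤ a := by
    rcases Nat.eq_zero_or_pos a with h0 | h0
    · exfalso
      rw [h0, pow_zero, one_mul] at hem
      exact hm (hem ▸ hI.ev)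
    · exact h0
  have hmpos : m ≠ 0 := by
    rintro rfl
    exact hm (dvd_zero _)
  have hcth : c ∈ thr G := h6.c_mem.2
  -- `P_x` is a 3-group
  have hP3 : IsPGroup 3 (R.P x) := by
    obtain ⟨S, hS⟩ := h6.two.syl
    rw [← hS]; exact S.isPGroup'
  have hqodd : ¬ 2 ∣ qq R x := by
    have : Fact (Nat.Prime 3) := ⟨Nat.prime_three⟩
    obtain ⟨n, hn⟩ := (IsPGroup.iff_card (p := 3)).mp hP3
    unfold qq
    rw [hn]
    intro h
    have := Nat.Prime.dvd_of_dvd_pow Nat.prime_two h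
    omega
  have hKP3 : ∀ g ∈ K1 G ⊓ R.P x, ∀ n : ℕ, g ^ (2 ^ n) = 1 → g = 1 := fun g hg n h =>
    ID_two_three (R.P x) hP3 g hg.2 n h
  have hKPodd : ¬ 2 ∣ Nat.card (K1 G ⊓ R.P x : Subgroup G) := by
    have h1 : Nat.card (K1 G ⊓ R.P x : Subgroup G) ∣ qq R x := Subgroup.card_dvd_of_le inf_le_right
    intro h
    exact hqodd (h.trans h1)
  -- the 2-part of `C`
  have hc2th : c ^ m ∈ thr G := Subgroup.pow_mem _ hcth m
  have hc2o : orderOf (c ^ m) = 2 ^ a := by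
    rw [orderOf_pow_of_dvd hmpos (by rw [hce, hem]; exact Dvd.intro_left _ rfl), hce, hem]
    exact Nat.mul_div_cancel _ (Nat.pos_of_ne_zero hmpos)
  have : Fact (Nat.Prime 2) := ⟨Nat.prime_two⟩
  have hC2 : IsPGroup 2 (Subgroup.zpowers (⟨c ^ m, hc2th⟩ : thr G)) := by
    apply IsPGroup.of_card (n := a)
    rw [Nat.card_zpowers, Subgroup.orderOf_mk, hc2o]
  obtain ⟨P', hP'⟩ := hC2.exists_le_sylow
  let S : Subgroup G := (P' : Subgroup (thr G)).map (thr G).subtype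
  have hSth : S ≤ thr G := Subgroup.map_subtype_le _
  have hS2 : IsPGroup 2 S := P'.isPGroup'.map _
  have hSP : S.subgroupOf (thr G) = P' := by
    show Subgroup.comap (thr G).subtype (Subgroup.map (thr G).subtype (P' : Subgroup (thr G))) = _
    exact Subgroup.comap_map_eq_self_of_injective (thr G).subtype_injective _
  have hidx : ¬ 2 ∣ S.relIndex (thr G) := by
    unfold Subgroup.relIndex
    rw [hSP]
    exact P'.not_dvd_index
  have hC2S : Subgroup.zpowers (c ^ m) ≤ S := by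
    rw [Subgroup.zpowers_le]
    exact ⟨⟨c ^ m, hc2th⟩, hP' (Subgroup.mem_zpowers _), rfl⟩
  -- cardinality of `S`
  obtain ⟨b, hb⟩ := (IsPGroup.iff_card (p := 2)).mp hS2
  have hcardS : b = a + 1 := by
    have h1 : Nat.card S * S.relIndex (thr G) = Nat.card (thr G) := by
      have h2 := Subgroup.relIndex_mul_relIndex ⊥ S (thr G) bot_le hSth
      rwa [Subgroup.relIndex_bot_left, Subgroup.relIndex_bot_left] at h2
    rw [hb, h6.cardG1, hI.u1, hem] at h1
    apply ID_pow hidx (n := qq R x * m * h') ?_ (h1.trans (by ring))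
    intro h
    rcases (Nat.Prime.dvd_mul Nat.prime_two).mp h with h | h
    · rcases (Nat.Prime.dvd_mul Nat.prime_two).mp h with h | h
      · exact hqodd h
      · exact hm h
    · exact hI.od h
  have hC2card : Nat.card (Subgroup.zpowers (c ^ m)) = 2 ^ a := by rw [Nat.card_zpowers, hc2o]
  have hcard2 : Nat.card S = 2 * Nat.card (Subgroup.zpowers (c ^ m)) := by
    rw [hb, hcardS, hC2card]; ring
  have hzC2 : c ^ (e' / 2) ∈ Subgroup.zpowers (c ^ m) := by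
    obtain ⟨a', rfl⟩ := Nat.exists_eq_add_of_le ha
    have : e' / 2 = m * 2 ^ a' := by
      rw [hem]
      have : 2 ^ (1 + a') * m = 2 * (m * 2 ^ a') := by ring
      rw [this, Nat.mul_div_cancel_left _ (by norm_num)]
    rw [this, pow_mul]
    exact Subgroup.pow_mem _ (Subgroup.mem_zpowers _) _
  -- only one involution in `S`
  have hKS : Nat.card (K1 G ⊓ S : Subgroup G) ≤ 2 := by
    obtain ⟨b', hb'⟩ := (IsPGroup.iff_card (p := 2)).mp (hS2.to_le (inf_le_right : K1 G ⊓ S ≤ S))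
    have h1 : Nat.card (K1 G ⊓ S : Subgroup G) ∣ Nat.card (K1 G) := Subgroup.card_dvd_of_le inf_le_left
    rw [z5, hb'] at h1
    rw [hb']
    by_contra hlt
    have hb'2 : 2 ≤ b' := by
      by_contra h
      have : b' ≤ 1 := by omega
      have h3 : 2 ^ b' ≤ 2 ^ 1 := Nat.pow_le_pow_right (by norm_num) this
      omega
    have h4 : 2 * 2 ∣ 2 * Nat.card (K1 G ⊓ R.P x : Subgroup G) := by
      have : 2 * 2 ∣ 2 ^ b' := by
        have : (2 : ℕ) ^ 2 ∣ 2 ^ b' := pow_dvd_pow 2 hb'2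
        simpa using this
      exact this.trans h1
    exact hKPodd (Nat.dvd_of_mul_dvd_mul_left (by norm_num) h4)
  have hinv : ∀ t ∈ S, t * t = 1 → t = 1 ∨ t = c ^ (e' / 2) := by
    intro t ht htt
    by_contra hcon
    push Not at hcon
    obtain ⟨ht1, htz⟩ := hcon
    have htK : t ∈ K1 G := z6 t (hSth ht) htt
    have hsub : ({1, c ^ (e' / 2), t} : Set G) ⊆ ((K1 G ⊓ S : Subgroup G) : Set G) := by
      intro g hg
      rcases hg with rfl | rfl | rfl
      · exact Subgroup.one_mem _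
      · exact ⟨z1, hC2S hzC2⟩
      · exact ⟨htK, ht⟩
    have h3 : ({1, c ^ (e' / 2), t} : Set G).ncard = 3 := by
      rw [Set.ncard_eq_three]
      exact ⟨1, c ^ (e' / 2), t, Ne.symm z2, Ne.symm ht1, Ne.symm htz, rfl⟩
    have h4 := Set.ncard_le_ncard hsub (Set.toFinite _)
    rw [h3] at h4
    have h5 : ((K1 G ⊓ S : Subgroup G) : Set G).ncard = Nat.card (K1 G ⊓ S : Subgroup G) := rfl
    omega
  have hcomm : ⁅S, S⁆ ≠ ⊥ := by
    intro h
    have h1 := h6.k1t S hSth hS2 hidx _ ⟨hC2S hzC2, z1⟩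
    rw [h] at h1
    exact z2 (Subgroup.mem_bot.mp h1)
  have hcyc : IsCyclic (Subgroup.zpowers (c ^ m)) := inferInstance
  obtain ⟨q1, q2⟩ := hQU G S (Subgroup.zpowers (c ^ m)) (c ^ (e' / 2)) hS2 hC2S hcyc hcard2 hzC2 z3 z2
    hinv hcomm
  rw [hC2card] at q1
  refine ⟨q1.trans (by rw [hem]; exact Dvd.intro _ rfl), ?_⟩
  -- the element `s`
  have hex : ∃ s ∈ S, s ∉ Subgroup.zpowers (c ^ m) := by
    by_contra hcon
    push Not at hcon
    have hle : S ≤ Subgroup.zpowers (c ^ m) := hcon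
    have h1 := Subgroup.card_le_of_le hle
    rw [hcard2] at h1
    have h2 : 0 < Nat.card (Subgroup.zpowers (c ^ m)) := Nat.card_pos
    omega
  obtain ⟨s, hs, hsC⟩ := hex
  obtain ⟨s1, s2⟩ := q2 s hs hsC
  refine ⟨s, hSth hs, s1, ?_, ?_⟩
  · rintro g hg ⟨n, hn⟩
    apply s2
    obtain ⟨j, rfl⟩ := hg
    -- `m ∣ j`
    have h1 : (orderOf c : ℤ) ∣ j * 2 ^ n := by
      rw [orderOf_dvd_iff_zpow_eq_one]
      rw [zpow_mul]
      have : ((2 : ℤ) ^ n) = ((2 ^ n : ℕ) : ℤ) := by push_cast; rfl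
      rw [this, zpow_natCast]
      exact hn
    have h2 : (m : ℤ) ∣ j * 2 ^ n := by
      refine dvd_trans ?_ h1
      rw [hce, hem]
      push_cast
      exact Dvd.intro_left _ rfl
    have h3 : IsCoprime (m : ℤ) (2 ^ n) := by
      apply IsCoprime.pow_right
      rw [Int.isCoprime_iff_gcd_eq_one]
      have h4 : Nat.Coprime m 2 := by
        rw [Nat.coprime_comm, Nat.Prime.coprime_iff_not_dvd Nat.prime_two]
        exact hm
      exact_mod_cast h4
    obtain ⟨i, rfl⟩ := h3.dvd_of_dvd_mul_right h2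
    show c ^ ((m : ℤ) * i) ∈ Subgroup.zpowers (c ^ m)
    rw [zpow_mul, zpow_natCast]
    exact Subgroup.zpow_mem _ (Subgroup.mem_zpowers _) _
  · rintro n v hv rfl
    have h1 := s2 (c ^ m) (Subgroup.mem_zpowers _)
    have hw := h6.k1c v hv (c ^ m) hc2th
    have hnorm := h6.k1n
    have hw' : c ^ n * (v * c ^ m * v⁻¹ * (c ^ m)⁻¹) * (c ^ n)⁻¹ ∈ K1 G ⊓ R.P x :=
      hnorm.conj_mem _ hw _
    have heq : c ^ n * (v * c ^ m * v⁻¹ * (c ^ m)⁻¹) * (c ^ n)⁻¹ = (c ^ m)⁻¹ * (c ^ m)⁻¹ := by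
      have hcc : (c ^ m)⁻¹ * (c ^ n)⁻¹ = (c ^ n)⁻¹ * (c ^ m)⁻¹ := by
        rw [← mul_inv_rev, ← mul_inv_rev, ← pow_add, ← pow_add, add_comm]
      calc c ^ n * (v * c ^ m * v⁻¹ * (c ^ m)⁻¹) * (c ^ n)⁻¹
          = c ^ n * v * c ^ m * v⁻¹ * ((c ^ m)⁻¹ * (c ^ n)⁻¹) := by group
        _ = c ^ n * v * c ^ m * v⁻¹ * ((c ^ n)⁻¹ * (c ^ m)⁻¹) := by rw [hcc]
        _ = (c ^ n * v * c ^ m * (c ^ n * v)⁻¹) * (c ^ m)⁻¹ := by
          rw [mul_inv_rev]; group
        _ = (c ^ m)⁻¹ * (c ^ m)⁻¹ := by rw [h1]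
    rw [heq] at hw'
    have h2 := hKP3 _ hw' a (by
      rw [← mul_inv_rev, inv_pow, ← pow_two, ← pow_mul, mul_comm 2, pow_mul, ← hc2o,
        pow_orderOf_eq_one, one_pow, inv_one])
    have h3 : (c ^ m) ^ 2 = 1 := by
      have := congrArg (fun g => g⁻¹) h2
      simpa [pow_two] using this
    have h4 : 2 ^ a ∣ 2 := by
      rw [← hc2o]
      exact orderOf_dvd_of_pow_eq_one h3
    have h5 := Nat.le_of_dvd (by norm_num) (q1.trans h4)
    omega

end Pool.Agent.helper75.AU
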