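import Pool.Agent.helper75.AU.SpecR2

/-!
# Project au, module IGF (assembly of Case I)
-/

namespace Pool.Agent.helper75.AU

open scoped Classical
open Pool.Agent.helper53.AU MulAction

theorem IGF_arith {j c h' : ℕ} (h3 : ¬ 3 ∣ h') (hc : 1 ≤ c)
    (h : 3 ^ j * h' = 3 ^ c * ((3 ^ c - 1) / 2)) : j = c ∧ 2 * h' + 1 = 3 ^ c := by
  obtain ⟨r, hr⟩ : ∃ r, (3 : ℕ) ^ c = 2 * r + 1 := by
    have : Odd ((3 : ℕ) ^ c) := Odd.pow (by decide)
    exact this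
  have hr2 : ((3 : ℕ) ^ c - 1) / 2 = r := by omega
  rw [hr2] at h
  have h3r : ¬ 3 ∣ r := by
    rintro ⟨s, rfl⟩
    obtain ⟨c', rfl⟩ := Nat.exists_eq_add_of_le hc
    have : (3 : ℕ) ^ (1 + c') = 3 * 3 ^ c' := by ring
    omega
  rcases lt_trichotomy j c with hjc | hjc | hjc
  · exfalso
    obtain ⟨d, rfl⟩ := Nat.exists_eq_add_of_lt hjc
    have h1 : h' = 3 ^ (d + 1) * r := by
      have : 3 ^ j * h' = 3 ^ j * (3 ^ (d + 1) * r) := by rw [h]; ring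
      exact Nat.eq_of_mul_eq_mul_left (by positivity) this
    exact h3 ⟨3 ^ d * r, by rw [h1]; ring⟩
  · subst hjc
    have h1 : h' = r := Nat.eq_of_mul_eq_mul_left (by positivity) h
    exact ⟨rfl, by omega⟩
  · exfalso
    obtain ⟨d, rfl⟩ := Nat.exists_eq_add_of_lt hjc
    have h1 : r = 3 ^ (d + 1) * h' := by
      have : 3 ^ c * r = 3 ^ c * (3 ^ (d + 1) * h') := by rw [← h]; ring
      exact Nat.eq_of_mul_eq_mul_left (by positivity) this
    exact h3r ⟨3 ^ d * h', by rw [h1]; ring⟩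

theorem IGF : IGF_stmt := by
  intro hIGP hIGA hRS hTG hF2 hBA1 k G X _ _ _ _ _ _ l R x y c u h' e' u₁ hl h6 hI
  obtain ⟨A, hPL, hG3, hnorm, hcomm, hstab⟩ := hIGP k G X l R x y c u h' e' u₁ hl h6 hI
  have hne4 := hIGA k G X l R x y c u h' e' u₁ hl h6 hI
  have hfin : Finite (Sylow 3 G) := hPL.finΩ
  have hLL := (hRS (ph G).range (Sylow 3 G) ((thr G).map (ph G).rangeRestrict) A hnorm hcomm hG3
    hPL).resolve_left (by rw [h6.om]; exact hne4)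
  obtain ⟨c', hodd, h3c, hcard, hst⟩ := (hTG _ _ A hLL).card
  obtain ⟨α⟩ := hPL.nonempty
  obtain ⟨j, hj1, hj2⟩ := hstab α
  rw [hst α] at hj2
  have hb := hBA1 k G X (l + 1) R x
  have h3h : ¬ 3 ∣ h' := by
    intro h
    apply hb.2.2.2.2.2.2.2.1
    rw [h6.num.hx]
    exact Dvd.dvd.mul_left h u
  obtain ⟨e1, e2⟩ := IGF_arith h3h (by omega) hj2.symm
  refine ⟨c', h3c, Nat.odd_iff.mp hodd, ?_, e2, ?_⟩
  · rw [← h6.om, hcard]
  · rw [← e1]
    have h1 : Nat.card (R.P x) ≤ l + 2 := (hF2 k G X l R (R.P x) hb.1).2 hl.mod3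
    have h2 : 0 < qq R x := Nat.card_pos
    exact (Nat.le_of_dvd h2 hj1).trans h1

end Pool.Agent.helper75.AU
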