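import Pool.Agent.helper53.AU.SpecG1

/-!
# Project au, module LI (gluing of orbits)
-/

namespace Pool.Agent.helper53.AU

open scoped Classical

/-- the elements of `X` acting on every orbit as some element of `A` -/
def LI_X0 {L Ω : Type} [Group L] [MulAction L Ω] (X A : Subgroup L) (hAX : A ≤ X) : Subgroup L where
  carrier := {z | z ∈ X ∧ ∀ ω : Ω, ∃ a ∈ A, ∀ y ∈ X, z • (y • ω) = a • (y • ω)}
  mul_mem' := by
    rintro z₁ z₂ ⟨h₁, h₁'⟩ ⟨h₂, h₂'⟩
    refine ⟨X.mul_mem h₁ h₂, fun ω => ?_⟩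
    obtain ⟨a₁, ha₁, k₁⟩ := h₁' ω
    obtain ⟨a₂, ha₂, k₂⟩ := h₂' ω
    refine ⟨a₁ * a₂, A.mul_mem ha₁ ha₂, fun y hy => ?_⟩
    have e : a₂ • (y • ω) = (a₂ * y) • ω := (mul_smul _ _ _).symm
    rw [mul_smul, k₂ y hy, e, k₁ _ (X.mul_mem (hAX ha₂) hy), mul_smul, mul_smul]
  one_mem' := ⟨X.one_mem, fun ω => ⟨1, A.one_mem, fun y _ => rfl⟩⟩
  inv_mem' := by
    rintro z ⟨h, h'⟩
    refine ⟨X.inv_mem h, fun ω => ?_⟩
    obtain ⟨a, ha, k⟩ := h' ω
    refine ⟨a⁻¹, A.inv_mem ha, fun y hy => ?_⟩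
    have e := k (a⁻¹ * y) (X.mul_mem (hAX (A.inv_mem ha)) hy)
    rw [mul_smul, smul_inv_smul] at e
    rw [inv_smul_eq_iff, e]

theorem LI : LI_stmt := by
  intro L Ω _ _ _ _ _ X A hAX hab horb hsemi hcop hconj x hx a ha
  by_cases hΩ : Nonempty Ω
  · obtain ⟨ω⟩ := hΩ
    -- elements of X₀ have exponent dividing |A|
    have hexp : ∀ z ∈ LI_X0 (Ω := Ω) X A hAX, z ^ Nat.card A = 1 := by
      rintro z ⟨hz, hz'⟩
      apply FaithfulSMul.eq_of_smul_eq_smul (α := Ω)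
      intro τ
      obtain ⟨b, hb, k⟩ := hz' τ
      have key : ∀ n : ℕ, z ^ n • τ = b ^ n • τ := by
        intro n
        induction n with
        | zero => simp
        | succ n ih =>
          rw [pow_succ', mul_smul, ih, k _ (hAX (A.pow_mem hb n)), pow_succ', mul_smul]
      rw [key]
      have : b ^ Nat.card A = 1 := by
        have h1 : (⟨b, hb⟩ : A) ^ Nat.card A = 1 := pow_card_eq_one'
        exact congrArg Subtype.val h1
      rw [this]
    have hfix : ∀ z ∈ LI_X0 (Ω := Ω) X A hAX, z • ω = ω → z = 1 := by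
      intro z hz hzω
      have h1 : orderOf z ∣ Nat.card A := orderOf_dvd_of_pow_eq_one (hexp z hz)
      let S : Subgroup L := X ⊓ MulAction.stabilizer L ω
      have hzS : z ∈ S := ⟨hz.1, hzω⟩
      have h2 : orderOf z ∣ Nat.card S := by
        have := orderOf_dvd_natCard (⟨z, hzS⟩ : S)
        rwa [Subgroup.orderOf_mk] at this
      have h3 : Nat.card S = Nat.card {x : L // x ∈ X ∧ x • ω = ω} :=
        Nat.card_congr (Equiv.subtypeEquivRight (fun x => by
          simp [S, Subgroup.mem_inf, MulAction.mem_stabilizer_iff]))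
      rw [h3] at h2
      have h4 := Nat.eq_one_of_dvd_coprimes (hcop ω) h2 h1
      exact orderOf_eq_one_iff.mp h4
    have hz : x * a * x⁻¹ ∈ LI_X0 (Ω := Ω) X A hAX :=
      ⟨X.mul_mem (X.mul_mem hx (hAX ha)) (X.inv_mem hx), fun τ => hconj τ x hx a ha⟩
    obtain ⟨b, hb, k⟩ := hconj ω x hx a ha
    have hbω : (x * a * x⁻¹) • ω = b • ω := by
      have := k 1 X.one_mem
      simpa using this
    have hb0 : b ∈ LI_X0 (Ω := Ω) X A hAX :=
      ⟨hAX hb, fun τ => ⟨b, hb, fun y _ => rfl⟩⟩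
    have h5 : b⁻¹ * (x * a * x⁻¹) = 1 := by
      apply hfix _ (Subgroup.mul_mem _ (Subgroup.inv_mem _ hb0) hz)
      rw [mul_smul, hbω, inv_smul_smul]
    have h6 : x * a * x⁻¹ = b := by
      have := eq_inv_of_mul_eq_one_right h5
      simpa using this
    rw [h6]
    exact hb
  · have h1 : x * a * x⁻¹ = 1 := by
      apply FaithfulSMul.eq_of_smul_eq_smul (α := Ω)
      intro τ
      exact absurd ⟨τ⟩ hΩ
    rw [h1]
    exact A.one_mem

end Pool.Agent.helper53.AU
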