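import Pool.Agent.helper43.AU.BA4

/-!
# Project au, module NUM (the numerical data of types (A), (B), (C))
-/

namespace Pool.Agent.helper75.AU

open scoped Classical
open Pool.Agent.helper53.AU MulAction

theorem NUM_arith (O O2 q q2 h e N : ℕ) (m : ℕ) (hN : O * (q * h) = N) (hN2 : O2 * (q2 * e) = N)
    (hq : q = 3 ^ m) (hq2 : q2 ∣ q) (h3h : ¬ 3 ∣ h) (h3e : ¬ 3 ∣ e) (hNp : 0 < N) :
    ∃ D u h' e' : ℕ, h = u * h' ∧ e = u * e' ∧ Nat.Coprime h' e' ∧ O = D * e' ∧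
      q2 * O2 = D * q * h' ∧ N = D * q * u * e' * h' ∧ D ∣ O2 ∧
      (0 < D ∧ 0 < u ∧ 0 < h' ∧ 0 < e') := by
  have hO : 0 < O := Nat.pos_of_ne_zero (by rintro rfl; omega)
  have hO2 : 0 < O2 := Nat.pos_of_ne_zero (by rintro rfl; omega)
  have hhp : 0 < h := Nat.pos_of_ne_zero (by rintro rfl; omega)
  have hep : 0 < e := Nat.pos_of_ne_zero (by rintro rfl; omega)
  have hup : 0 < Nat.gcd h e := Nat.gcd_pos_of_pos_left _ hhp
  obtain ⟨h', e', hcop, hh', he'⟩ := Nat.exists_coprime h e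
  set u := Nat.gcd h e with hu
  obtain ⟨q3, hq3⟩ := hq2
  have hqp : 0 < q := by rw [hq]; positivity
  have hq2p : 0 < q2 := Nat.pos_of_ne_zero (by rintro rfl; simp at hq3; omega)
  have h'p : 0 < h' := Nat.pos_of_ne_zero (by rintro rfl; simp at hh'; omega)
  have e'p : 0 < e' := Nat.pos_of_ne_zero (by rintro rfl; simp at he'; omega)
  -- O * q3 * h' = O2 * e'
  have key : O * q3 * h' = O2 * e' := by
    have h1 : (O * q3 * h') * (q2 * u) = (O2 * e') * (q2 * u) := by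
      have h2 : O * (q * h) = O2 * (q2 * e) := by rw [hN, hN2]
      rw [hq3, hh', he'] at h2
      calc (O * q3 * h') * (q2 * u) = O * (q2 * q3 * (h' * u)) := by ring
        _ = O2 * (q2 * (e' * u)) := h2
        _ = (O2 * e') * (q2 * u) := by ring
    exact Nat.eq_of_mul_eq_mul_right (Nat.mul_pos hq2p hup) h1
  have h3e' : Nat.Coprime e' q3 := by
    have h1 : Nat.Coprime 3 e' := by
      rw [Nat.Prime.coprime_iff_not_dvd Nat.prime_three]
      intro h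
      exact h3e (by rw [he']; exact Dvd.dvd.mul_right h u)
    have h2 : Nat.Coprime (3 ^ m) e' := Nat.Coprime.pow_left m h1
    exact (Nat.Coprime.coprime_dvd_left ⟨q2, by rw [← hq, hq3, mul_comm]⟩ h2).symm
  have hdvd : e' ∣ O := by
    have h1 : e' ∣ O * (q3 * h') := ⟨O2, by rw [← mul_assoc, key, mul_comm]⟩
    exact (Nat.Coprime.mul_right h3e' hcop.symm).dvd_of_dvd_mul_right h1
  obtain ⟨D, hD⟩ := hdvd
  have hDO2 : O2 = D * q3 * h' := by
    have h1 : O2 * e' = (D * q3 * h') * e' := by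
      rw [← key, hD]; ring
    exact Nat.eq_of_mul_eq_mul_right e'p h1
  refine ⟨D, u, h', e', by rw [hh']; ring, by rw [he']; ring, hcop, by rw [hD]; ring, ?_, ?_, ?_, ?_,
    hup, h'p, e'p⟩
  · rw [hDO2, hq3]; ring
  · rw [← hN, hD, hh']; ring
  · exact ⟨q3 * h', by rw [hDO2]; ring⟩
  · exact Nat.pos_of_ne_zero (by rintro rfl; simp at hD; omega)

theorem NUM (h1 : BA1_stmt) (h3 : C3_stmt) : NUM_stmt := by
  intro k G X _ _ _ _ _ _ l R x y hl hT
  obtain ⟨bx1, -, -, -, -, -, bx7, bx8, ⟨m, bx9⟩, c, hc⟩ := h1 k G X (l + 1) R x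
  obtain ⟨by1, -, -, -, -, -, by7, by8, -, -⟩ := h1 k G X (l + 1) R y
  have hdvd := (h3 k G X (l + 1) R x c hc).2.1
  have o1 := (BA4 G X).1 x
  have o2 := (BA4 G X).1 y
  have hq2 : qq R y ∣ qq R x := by
    obtain ⟨S, hS⟩ := hT.syl
    obtain ⟨S', hS'⟩ := by1.exists_le_sylow
    have e1 : Nat.card (S : Subgroup G) = Nat.card (S' : Subgroup G) := by
      have : Fact (Nat.Prime 3) := ⟨Nat.prime_three⟩
      rw [Sylow.card_eq_multiplicity S, Sylow.card_eq_multiplicity S']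
    have e2 : Nat.card (R.P y) ∣ Nat.card (S' : Subgroup G) := Subgroup.card_dvd_of_le hS'
    unfold qq
    rw [← hS, e1]
    exact e2
  rw [bx7] at o1
  rw [by7] at o2
  have hNp : 0 < Nat.card G := Nat.card_pos
  obtain ⟨D, u, h', e', a1, a2, a3, a4, a5, a6, a7, a8⟩ :=
    NUM_arith _ _ _ _ _ _ _ m o1 o2 bx9 hq2 bx8 by8 hNp
  refine ⟨D, u, h', e', ⟨a1, a2, a3, a4, a5, a6, ?_, hq2, hdvd, a8⟩⟩
  -- D ∣ 2 l
  have hrh := hT.rh
  have b1 : (D : ℤ) ∣ (oo G x : ℤ) := by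
    rw [a4]; push_cast; exact Dvd.intro _ rfl
  have b2 : (D : ℤ) ∣ (oo G y : ℤ) := by exact_mod_cast a7
  have b3 : (2 * (l : ℤ)) = oo G x * ((R.T x : ℤ) - 1) + oo G y * ((R.T y : ℤ) - 1) := by
    have : (2 * ((l : ℤ) + 1) + oo G x + oo G y) = 2 + oo G x * R.T x + oo G y * R.T y := by
      exact_mod_cast hrh
    linarith
  have b4 : (D : ℤ) ∣ ((2 * l : ℕ) : ℤ) := by
    push_cast
    rw [b3]
    exact dvd_add (Dvd.dvd.mul_right b1 _) (Dvd.dvd.mul_right b2 _)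
  exact_mod_cast b4

end Pool.Agent.helper75.AU
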