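import Pool.Agent.helper87.AU.SpecQ2

/-!
# Project au, module QE2 (restriction of places to the fixed field)
-/

namespace Pool.Agent.helper53.AU

open scoped Classical IntermediateField
open IntermediateField (fixedField)

noncomputable section

/-- a place is not trivial on a subfield over which `F` is algebraic -/
theorem QE2_nontriv {k F : Type} [Field k] [Field F] [Algebra k F] (P : Place k F)
    (E : IntermediateField k F) (hE : ∀ f : F, IsAlgebraic E f) :
    ∃ f : E, (f : F) ≠ 0 ∧ P.ord (f : F) ≠ 0 := by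
  by_contra hcon
  push Not at hcon
  obtain ⟨t, ht0, ht1⟩ := P.exists_uniformizer
  obtain ⟨p, hp0, hp⟩ := hE t
  rw [Polynomial.aeval_def, Polynomial.eval₂_eq_sum, Polynomial.sum_def] at hp
  have hi0 : p.natTrailingDegree ∈ p.support := Polynomial.natTrailingDegree_mem_support_of_nonzero hp0
  rw [← Finset.add_sum_erase _ _ hi0] at hp
  have hc : ∀ i ∈ p.support, (algebraMap E F) (p.coeff i) * t ^ i ≠ 0 ∧
      P.ord ((algebraMap E F) (p.coeff i) * t ^ i) = i := by
    intro i hi
    have h1 : p.coeff i ≠ 0 := Polynomial.mem_support_iff.mp hi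
    have h2 : ((p.coeff i : E) : F) ≠ 0 := by
      intro h
      exact h1 (by exact_mod_cast h)
    have h3 : (algebraMap E F) (p.coeff i) = ((p.coeff i : E) : F) := rfl
    rw [h3]
    refine ⟨mul_ne_zero h2 (pow_ne_zero _ ht0), ?_⟩
    rw [P.ord_mul _ _ h2 (pow_ne_zero _ ht0), hcon _ h2, P.ord_pow ht0, ht1]
    ring
  obtain ⟨h1, h2⟩ := hc _ hi0
  refine (Place.ord_add_eq (P := P) h1 ?_).1 hp
  apply Place.Ge.sum
  intro i hi
  have hi' : i ∈ p.support := Finset.mem_of_mem_erase hi
  have hne : i ≠ p.natTrailingDegree := Finset.ne_of_mem_erase hi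
  have hle : p.natTrailingDegree ≤ i :=
    Polynomial.natTrailingDegree_le_of_mem_supp i hi'
  right
  rw [h2, (hc i hi').2]
  have : p.natTrailingDegree < i := lt_of_le_of_ne hle (Ne.symm hne)
  exact_mod_cast this

/-- restriction of a place to a subfield on which it is not trivial -/
theorem QE2_restr {k F : Type} [Field k] [Field F] [Algebra k F] (P : Place k F)
    (E : IntermediateField k F) (hE : ∃ f : E, (f : F) ≠ 0 ∧ P.ord (f : F) ≠ 0) :
    ∃ (Q : Place k E) (e : ℕ), Below E P Q e := by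
  let S : AddSubgroup ℤ :=
    { carrier := {n | ∃ f : E, (f : F) ≠ 0 ∧ P.ord (f : F) = n}
      zero_mem' := ⟨1, by simp, by simp [P.ord_one]⟩
      add_mem' := by
        rintro a b ⟨f, hf, rfl⟩ ⟨g, hg, rfl⟩
        refine ⟨f * g, ?_, ?_⟩
        · push_cast; exact mul_ne_zero hf hg
        · push_cast; exact P.ord_mul _ _ hf hg
      neg_mem' := by
        rintro a ⟨f, hf, rfl⟩
        refine ⟨f⁻¹, ?_, ?_⟩
        · push_cast; exact inv_ne_zero hf
        · push_cast; exact P.ord_inv hf }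
  obtain ⟨a, ha⟩ := Int.subgroup_cyclic S
  have hmem : ∀ n : ℤ, n ∈ S ↔ a ∣ n := by
    intro n
    rw [ha, ← AddSubgroup.zmultiples_eq_closure, Int.mem_zmultiples_iff]
  have ha0 : a ≠ 0 := by
    rintro rfl
    obtain ⟨f, hf, hf'⟩ := hE
    have : P.ord (f : F) ∈ S := ⟨f, hf, rfl⟩
    rw [hmem, zero_dvd_iff] at this
    exact hf' this
  have he0 : (0 : ℤ) < (a.natAbs : ℤ) := by
    have := Int.natAbs_pos.mpr ha0
    exact_mod_cast this
  have hdvd : ∀ f : E, (a.natAbs : ℤ) ∣ P.ord (f : F) := by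
    intro f
    by_cases hf : (f : F) = 0
    · rw [hf, P.ord_zero]; exact dvd_zero _
    · rw [Int.natAbs_dvd, ← hmem]
      exact ⟨f, hf, rfl⟩
  have hq : ∀ f : E, P.ord (f : F) = (a.natAbs : ℤ) * (P.ord (f : F) / (a.natAbs : ℤ)) := fun f =>
    (Int.mul_ediv_cancel' (hdvd f)).symm
  refine ⟨{ ord := fun f => P.ord (f : F) / (a.natAbs : ℤ)
            ord_zero := ?_, ord_mul := ?_, ord_add := ?_, ord_const := ?_,
            exists_uniformizer := ?_ }, a.natAbs, Int.natAbs_pos.mpr ha0, hq⟩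
  · simp [P.ord_zero]
  · intro f g hf hg
    have hf' : (f : F) ≠ 0 := by simpa using hf
    have hg' : (g : F) ≠ 0 := by simpa using hg
    have h1 := P.ord_mul (f : F) (g : F) hf' hg'
    have h2 := hq f
    have h3 := hq g
    have h4 := hq (f * g)
    have h5 : ((f * g : E) : F) = (f : F) * (g : F) := by push_cast; rfl
    rw [h5] at h4 ⊢
    apply mul_left_cancel₀ he0.ne'
    rw [← h4, mul_add, ← h2, ← h3, h1]
  · intro f g hf hg hfg
    have hf' : (f : F) ≠ 0 := by simpa using hf
    have hg' : (g : F) ≠ 0 := by simpa using hg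
    have h5 : ((f + g : E) : F) = (f : F) + (g : F) := by push_cast; rfl
    have hfg' : (f : F) + (g : F) ≠ 0 := by
      rw [← h5]
      intro h
      exact hfg (by exact_mod_cast h)
    have h1 := P.ord_add (f : F) (g : F) hf' hg' hfg'
    rw [h5]
    rcases min_le_iff.mp h1 with h | h
    · exact (min_le_left _ _).trans (Int.ediv_le_ediv he0 h)
    · exact (min_le_right _ _).trans (Int.ediv_le_ediv he0 h)
  · intro c hc
    have h1 : ((algebraMap k E c : E) : F) = algebraMap k F c := rfl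
    rw [h1, P.ord_const c hc]
    simp
  · have h1 : (a.natAbs : ℤ) ∈ S := by
      rw [hmem]
      exact Int.dvd_natAbs.mpr dvd_rfl
    obtain ⟨f, hf, hf'⟩ := h1
    refine ⟨f, ?_, ?_⟩
    · intro h
      exact hf (by rw [h]; rfl)
    · rw [hf']
      exact Int.ediv_self he0.ne'

theorem QE2_uniq {k F : Type} [Field k] [Field F] [Algebra k F] (P : Place k F)
    (E : IntermediateField k F) (Q Q' : Place k E) (e e' : ℕ) (h : Below E P Q e)
    (h' : Below E P Q' e') : Q = Q' ∧ e = e' := by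
  have hee : e = e' := by
    obtain ⟨t, ht0, ht1⟩ := Q.exists_uniformizer
    obtain ⟨t', ht0', ht1'⟩ := Q'.exists_uniformizer
    have h1 := h.2 t
    rw [h'.2 t, ht1, mul_one] at h1
    have h2 := h'.2 t'
    rw [h.2 t', ht1', mul_one] at h2
    have h3 : e' ∣ e := by
      have : (e' : ℤ) ∣ e := ⟨_, h1.symm⟩
      exact_mod_cast this
    have h4 : e ∣ e' := by
      have : (e : ℤ) ∣ e' := ⟨_, h2.symm⟩
      exact_mod_cast this
    exact Nat.dvd_antisymm h4 h3
  subst hee
  refine ⟨?_, rfl⟩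
  ext f
  have h1 := (h.2 f).symm.trans (h'.2 f)
  have h2 : (e : ℤ) ≠ 0 := by
    have := h.1
    omega
  exact mul_left_cancel₀ h2 h1

theorem QE2 (hE1 : QE1_stmt) : QE2_stmt := by
  intro k F _ _ _ _ hF H hH P
  obtain ⟨-, hfin, -⟩ := hE1 k F hF H hH
  refine ⟨?_, fun Q Q' e e' h h' => QE2_uniq P _ Q Q' e e' h h'⟩
  apply QE2_restr
  apply QE2_nontriv
  intro f
  exact Algebra.IsAlgebraic.isAlgebraic f

end

end Pool.Agent.helper53.AU
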