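import Pool.Agent.helper87.AU.SpecQ1

/-!
# Project au, module QN1 (degree of the norm and of the trace)
-/

namespace Pool.Agent.helper53.AU

open scoped Classical IntermediateField
open Polynomial (aeval)

theorem QN1 (hA2 : QA2_stmt) : QN1_stmt := by
  intro k F _ _ _ _ _ P₀ x n u μ hO h hh hne A hA
  have hn : 0 < n := hO.pos
  have hnZ : (0 : ℤ) < n := by exact_mod_cast hn
  -- the columns
  have col : ∀ j, (∀ i, A i j ≠ 0 → (n * (A i j).natDegree + μ i : ℤ) ≤ -P₀.ord h + μ j) ∧
      ∃ i, A i j ≠ 0 ∧ (n * (A i j).natDegree + μ i : ℤ) = -P₀.ord h + μ j := by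
    intro j
    have hprod : h * u j ≠ 0 := mul_ne_zero hne (hO.ne j)
    have hex : ∃ i, A i j ≠ 0 := by
      by_contra hcon
      push Not at hcon
      apply hprod
      rw [hA j]
      simp [hcon]
    obtain ⟨q1, q2, q3⟩ := hA2 k F P₀ x n u μ hO (fun i => A i j) hex
    have e : -P₀.ord (∑ i, aeval x (A i j) * u i) = -P₀.ord h + μ j := by
      rw [← hA j, P₀.ord_mul h (u j) hne (hO.ne j), hO.ord j]
      ring
    rw [e] at q2 q3
    exact ⟨q2, q3⟩
  -- uniqueness of the row
  have uniq : ∀ i i' : Fin n, ∀ a b : ℕ, (n * a + μ i : ℤ) = n * b + μ i' → i = i' := by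
    intro i i' a b hab
    have h1 : n * a + μ i = n * b + μ i' := by exact_mod_cast hab
    have h2 : (n * a + μ i) % n = (n * b + μ i') % n := by rw [h1]
    rw [Nat.mul_add_mod, Nat.mul_add_mod, hO.res, hO.res] at h2
    exact Fin.ext h2
  choose f hf using fun j => (col j).2
  have hinj : Function.Injective f := by
    intro j j' hjj
    have h1 := (hf j).2
    have h2 := (hf j').2
    rw [hjj] at h1
    have h3 : (μ j : ℤ) - μ j' = n * ((A (f j') j).natDegree : ℤ) - n * ((A (f j') j').natDegree : ℤ) := by
      linarith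
    apply uniq j j' (A (f j') j').natDegree (A (f j') j).natDegree
    linarith
  have hbij : Function.Bijective f := Finite.injective_iff_bijective.mp hinj
  let σ₀ : Equiv.Perm (Fin n) := Equiv.ofBijective f hbij
  have hσ₀ : ∀ j, σ₀ j = f j := fun j => rfl
  let ν : ℕ := ∑ j, (A (f j) j).natDegree
  have hνdef : ν = ∑ j, (A (f j) j).natDegree := rfl
  have hperm : ∀ σ : Equiv.Perm (Fin n), ∑ j, (μ (σ j) : ℤ) = ∑ j, (μ j : ℤ) := fun σ =>
    Equiv.sum_comp σ (fun j => (μ j : ℤ))
  have hν : (ν : ℤ) = -P₀.ord h := by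
    have h1 : ∑ j, ((n : ℤ) * (A (f j) j).natDegree + μ (f j)) = ∑ j : Fin n, (-P₀.ord h + μ j) :=
      Finset.sum_congr rfl fun j _ => (hf j).2
    rw [Finset.sum_add_distrib, Finset.sum_add_distrib, ← Finset.mul_sum] at h1
    have h2 := hperm σ₀
    simp only [hσ₀] at h2
    rw [h2] at h1
    simp only [Finset.sum_const, Finset.card_univ, Fintype.card_fin, nsmul_eq_mul] at h1
    have h3 : (n : ℤ) * (ν : ℤ) = n * (-P₀.ord h) := by
      rw [hνdef]
      push_cast
      linarith
    exact mul_left_cancel₀ hnZ.ne' h3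
  -- the other permutations
  have hother : ∀ σ : Equiv.Perm (Fin n), σ ≠ σ₀ →
      (∏ j, A (σ j) j).degree < (ν : WithBot ℕ) := by
    intro σ hσ
    by_cases hz : ∏ j, A (σ j) j = 0
    · rw [hz, Polynomial.degree_zero]
      exact WithBot.bot_lt_coe _
    · have hz' : ∀ j, A (σ j) j ≠ 0 := fun j =>
        Finset.prod_ne_zero_iff.mp hz j (Finset.mem_univ j)
      rw [Polynomial.degree_eq_natDegree hz,
        Polynomial.natDegree_prod Finset.univ (fun j => A (σ j) j) (fun j _ => hz' j)]
      have hlt : ∑ j, ((n : ℤ) * (A (σ j) j).natDegree + μ (σ j)) < ∑ j : Fin n, (-P₀.ord h + μ j) := by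
        apply Finset.sum_lt_sum
        · intro j _
          exact (col j).1 (σ j) (hz' j)
        · by_contra hcon
          push Not at hcon
          apply hσ
          ext j
          have h1 := le_antisymm ((col j).1 (σ j) (hz' j)) (hcon j (Finset.mem_univ j))
          have h2 := (hf j).2
          have h3 := uniq (σ j) (f j) _ _ (h1.trans h2.symm)
          rw [h3, hσ₀]
      rw [Finset.sum_add_distrib, Finset.sum_add_distrib, ← Finset.mul_sum, hperm σ] at hlt
      simp only [Finset.sum_const, Finset.card_univ, Fintype.card_fin, nsmul_eq_mul] at hlt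
      rw [← hν] at hlt
      have h4 : (n : ℤ) * ∑ j, ((A (σ j) j).natDegree : ℤ) < n * (ν : ℤ) := by linarith
      have h5 := lt_of_mul_lt_mul_left h4 hnZ.le
      have h6 : ∑ j, (A (σ j) j).natDegree < ν := by exact_mod_cast h5
      exact_mod_cast h6
  -- the determinant
  have hmain : (∏ j, A (σ₀ j) j) ≠ 0 ∧ (∏ j, A (σ₀ j) j).degree = (ν : WithBot ℕ) := by
    have h0 : ∏ j, A (σ₀ j) j ≠ 0 := by
      rw [Finset.prod_ne_zero_iff]
      intro j _
      exact (hf j).1
    refine ⟨h0, ?_⟩
    rw [Polynomial.degree_eq_natDegree h0,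
      Polynomial.natDegree_prod Finset.univ (fun j => A (σ₀ j) j) (fun j _ => (hf j).1)]
    rfl
  have hdet : A.det.degree = (ν : WithBot ℕ) := by
    rw [Matrix.det_apply, ← Finset.add_sum_erase Finset.univ _ (Finset.mem_univ σ₀)]
    have hT : (Equiv.Perm.sign σ₀ • ∏ j, A (σ₀ j) j).degree = (ν : WithBot ℕ) := by
      rcases Int.units_eq_one_or (Equiv.Perm.sign σ₀) with e | e
      · rw [e, one_smul, hmain.2]
      · rw [e, Units.neg_smul, one_smul, Polynomial.degree_neg, hmain.2]
    have hR : (∑ σ ∈ Finset.univ.erase σ₀, Equiv.Perm.sign σ • ∏ j, A (σ j) j).degree <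
        (ν : WithBot ℕ) := by
      rw [← Polynomial.mem_degreeLT]
      apply Submodule.sum_mem
      intro σ hσ
      have h1 : ∏ j, A (σ j) j ∈ Polynomial.degreeLT k ν :=
        Polynomial.mem_degreeLT.mpr (hother σ (Finset.ne_of_mem_erase hσ))
      rcases Int.units_eq_one_or (Equiv.Perm.sign σ) with e | e
      · rw [e, one_smul]; exact h1
      · rw [e, Units.neg_smul, one_smul]; exact Submodule.neg_mem _ h1
    rw [Polynomial.degree_add_eq_left_of_degree_lt (by rw [hT]; exact hR), hT]
  have hdet0 : A.det ≠ 0 := by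
    intro h0
    rw [h0, Polynomial.degree_zero] at hdet
    exact absurd hdet.symm (WithBot.coe_ne_bot)
  have hdetn : A.det.natDegree = ν := Polynomial.natDegree_eq_of_degree_eq_some hdet
  -- the trace
  have hdiag : ∀ j, (A j j).natDegree ≤ ν / n := by
    intro j
    by_cases hz : A j j = 0
    · rw [hz]; simp
    · have h1 := (col j).1 j hz
      rw [← hν] at h1
      have h2 : (n : ℤ) * (A j j).natDegree ≤ ν := by linarith
      have h3 : n * (A j j).natDegree ≤ ν := by exact_mod_cast h2
      rw [Nat.le_div_iff_mul_le hn, mul_comm]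
      exact h3
  have htr : A.trace.natDegree ≤ ν / n := by
    unfold Matrix.trace
    exact Polynomial.natDegree_sum_le_of_forall_le _ _ fun j _ => hdiag j
  refine ⟨hdet0, by rw [hdetn, hν], ?_, ?_⟩
  · rw [← hν]
    have h1 : n * A.trace.natDegree ≤ n * (ν / n) := Nat.mul_le_mul_left n htr
    have h2 : n * (ν / n) ≤ ν := Nat.mul_div_le ν n
    exact_mod_cast h1.trans h2
  · intro m c hm hge
    have hx0 : x ≠ 0 := by
      intro h0
      have h1 := hO.xord
      rw [h0, P₀.ord_zero] at h1
      omega
    have hcoef : ∀ j, (A j j).coeff m = c := by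
      intro j
      let φ : Fin n → Polynomial k := fun i =>
        A i j - if i = j then Polynomial.C c * Polynomial.X ^ m else 0
      have hφj : φ j = A j j - Polynomial.C c * Polynomial.X ^ m := by
        simp [φ]
      have hsum : ∑ i, aeval x (φ i) * u i = (h - algebraMap k F c * x ^ m) * u j := by
        have h1 : ∀ i, aeval x (φ i) * u i = aeval x (A i j) * u i -
            (if i = j then (algebraMap k F c * x ^ m) * u j else 0) := by
          intro i
          simp only [φ]
          by_cases hij : i = j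
          · rw [if_pos hij, if_pos hij, map_sub, hij]
            simp only [map_mul, map_pow, Polynomial.aeval_C, Polynomial.aeval_X]
            ring
          · rw [if_neg hij, if_neg hij, sub_zero, sub_zero]
        rw [Finset.sum_congr rfl fun i _ => h1 i, Finset.sum_sub_distrib, ← hA j]
        simp only [Finset.sum_ite_eq', Finset.mem_univ, if_true]
        ring
      by_cases hz : φ j = 0
      · rw [hφj, sub_eq_zero] at hz
        rw [hz]
        simp
      · obtain ⟨q1, q2, -⟩ := hA2 k F P₀ x n u μ hO φ ⟨j, hz⟩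
        have h1 := q2 j hz
        rw [hsum] at h1 q1
        have h2 : h - algebraMap k F c * x ^ m ≠ 0 := left_ne_zero_of_mul q1
        rw [P₀.ord_mul _ _ h2 (hO.ne j), hO.ord j] at h1
        have h3 := hge.le h2
        have h4 : (n : ℤ) * (φ j).natDegree < n * m := by linarith
        have h5 : ((φ j).natDegree : ℤ) < m := lt_of_mul_lt_mul_left h4 hnZ.le
        have h6 : (φ j).natDegree < m := by exact_mod_cast h5
        have h7 := Polynomial.coeff_eq_zero_of_natDegree_lt h6
        rw [hφj, Polynomial.coeff_sub, sub_eq_zero] at h7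
        rw [h7]
        simp
    unfold Matrix.trace
    rw [Polynomial.finsetSum_coeff]
    simp only [Matrix.diag_apply, hcoef, Finset.sum_const, Finset.card_univ, Fintype.card_fin,
      nsmul_eq_mul]

end Pool.Agent.helper53.AU
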