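import Pool.Agent.helper75.AU.SpecR

/-!
# Project au, module S45 (summary of sections 4 and 5)
-/

namespace Pool.Agent.helper75.AU

open scoped Classical
open Pool.Agent.helper53.AU MulAction

theorem S45 (hBA5 : BA5_stmt) (hT4 : T4_stmt) (hT5 : T5_stmt) (hT6 : T6_stmt) (hT7 : T7_stmt)
    (hW2 : W2_stmt) (hW3 : W3_stmt) (hD : P5D_stmt) (hA : P5A_stmt) (hB : P5B_stmt)
    (hC : P5C_stmt) : S45_stmt := by
  intro k G X _ _ _ _ _ _ l R hl hN
  obtain ⟨X', iA, iF, R', z, hz⟩ := hBA5 k G X (l + 1) R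
  have htypes : (∃ x y : X', Two R' x y) ∨ ∃ x y y' : X', TypD R' x y y' := by
    rcases hT4 k G X' l R' z hl hz hN with h | h | ⟨y₁, y₂, y₃, h⟩
    · exact Or.inl h
    · exact Or.inr h
    · exfalso
      rcases hT5 k G X' l R' y₁ y₂ y₃ hl hN h with h' | ⟨h', y, hy, hy'⟩
      · exact hT6 k G X' l R' y₁ y₂ y₃ hl h h'
      · exact hT7 k G X' l R' y hl h' hy hy'
  have hnl : ¬ l ∣ Nat.card G := by
    intro hdvd
    obtain ⟨Lam, h1, h2⟩ := hW3 k G X' l R' hl hdvd hN htypes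
    exact hW2 k G X' l R' Lam hl h1 h2 hN htypes
  refine ⟨hnl, ?_⟩
  rcases htypes with ⟨x, y, h⟩ | ⟨x, y, y', h⟩
  · refine ⟨X', iA, iF, R', x, y, h, ?_, ?_⟩
    · intro hy
      exact hA k G X' l R' x y hl hN hnl h hy
    · intro hn
      by_cases hy : R'.P y = ⊥
      · exact hB k G X' l R' x y hl h hy hn
      · exact hC k G X' l R' x y hl hN hnl h hy hn
  · exact (hD k G X' l R' x y y' hl hN hnl h).elim

end Pool.Agent.helper75.AU
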